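import Pool.Agent.helper62.RP.Spec

/-!
Row rp:ALT: alternating products are not trivial.
-/

set_option autoImplicit false

open Polynomial Filter
open Pool.Agent.QU

namespace Pool.Agent.RP

theorem ALT_mul (x y : F2) (a b : Fin 2 × Bool) (hx : x.toWord.getLast? = some a)
    (hy : y.toWord.head? = some b) (hab : a.1 ≠ b.1) : (x * y).toWord = x.toWord ++ y.toWord := by
  rw [FreeGroup.toWord_mul]
  apply FreeGroup.IsReduced.reduce_eq
  refine List.isChain_append.2 ⟨FreeGroup.isReduced_toWord, FreeGroup.isReduced_toWord, ?_⟩
  intro s hs t ht
  rw [hx] at hs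
  rw [hy] at ht
  have h1 : a = s := by simpa using hs
  have h2 : b = t := by simpa using ht
  subst h1
  subst h2
  intro h
  exact absurd h hab

theorem ALT (h1 : KLM_stmt) : ALT_stmt := by
  intro h l hl hc hz hn
  have key : ∀ l : List (Bool × F2), l ≠ [] → List.IsChain (fun s t => s.1 ≠ t.1) l →
      (∀ s ∈ l, s.2 ∉ Subgroup.zpowers w0) → (∀ s ∈ l, s.2.norm < 4 * h) →
      ∀ s : Bool × F2, l.head? = some s →
        (l.map (fun s => cw h s.1 s.2)).prod.toWord.head? = some ((if s.1 then 0 else 1), true) := by
    intro l
    induction l with
    | nil => intro h; exact absurd rfl h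
    | cons s m ih =>
      intro _ hc hz hn s' hs'
      have hs : s = s' := by simpa using hs'
      subst hs
      have hk := h1 s.2 h (hz s List.mem_cons_self) (hn s List.mem_cons_self)
      have hhead : (cw h s.1 s.2).toWord.head? = some ((if s.1 then 0 else 1), true) := by
        cases hb : s.1 with
        | true => simpa using hk.1.1
        | false => simpa using hk.2.1
      have hlast : (cw h s.1 s.2).toWord.getLast? = some ((if s.1 then 0 else 1), false) := by
        cases hb : s.1 with
        | true => simpa using hk.1.2
        | false => simpa using hk.2.2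
      rw [List.map_cons, List.prod_cons]
      cases m with
      | nil =>
        rw [List.map_nil, List.prod_nil, mul_one]
        exact hhead
      | cons t m =>
        have hct := List.isChain_cons_cons.1 hc
        have ht := ih (by simp) hct.2 (fun u hu => hz u (List.mem_cons_of_mem _ hu))
          (fun u hu => hn u (List.mem_cons_of_mem _ hu)) t rfl
        have hne : (((if s.1 then 0 else 1), false) : Fin 2 × Bool).1 ≠
            (((if t.1 then 0 else 1), true) : Fin 2 × Bool).1 := by
          have h2 := hct.1
          revert h2
          cases s.1 <;> cases t.1 <;> simp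
        rw [ALT_mul _ _ _ _ hlast ht hne, List.head?_append, hhead]
        rfl
  obtain ⟨s, m, rfl⟩ := List.exists_cons_of_ne_nil hl
  have h2 := key _ hl hc hz hn s rfl
  intro h3
  rw [h3, FreeGroup.toWord_one] at h2
  simp at h2

end Pool.Agent.RP
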