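import Pool.Agent.helper62.RP.Spec

/-!
Row rp:BAL: the ball of the free group.
-/

set_option autoImplicit false

open Polynomial Filter
open Pool.Agent.QU

namespace Pool.Agent.RP

theorem BAL : BAL_stmt := by
  intro q s
  rw [ball, Finset.mem_image]
  constructor
  · rintro ⟨v, _, rfl⟩
    refine FreeGroup.norm_mk_le.trans ?_
    rw [List.length_ofFn]
    exact Nat.lt_succ_iff.1 v.1.2
  · intro h
    refine ⟨⟨⟨s.toWord.length, Nat.lt_succ_iff.2 h⟩, fun i => s.toWord.get i⟩, Finset.mem_univ _, ?_⟩
    have h1 : (List.ofFn fun i : Fin s.toWord.length => s.toWord.get i) = s.toWord := List.ofFn_get _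
    rw [h1, FreeGroup.mk_toWord]

end Pool.Agent.RP
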