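import Pool.Agent.helper62.RP.Spec

/-!
Row rp:EXP: the expected number of fixed points of a word is rational in `1/N`.
-/

set_option autoImplicit false

open Polynomial Filter
open Pool.Agent.QU

namespace Pool.Agent.RP

theorem EXP_fx {N : ℕ} (g π : Equiv.Perm (Fin N)) : fx (g * π * g⁻¹) = fx π := by
  unfold fx
  symm
  apply Finset.card_bij (fun i _ => g i)
  · intro i hi
    rw [Finset.mem_filter] at hi ⊢
    refine ⟨Finset.mem_univ _, ?_⟩
    have h1 : g⁻¹ (g i) = i := g.symm_apply_apply i
    rw [Equiv.Perm.mul_apply, Equiv.Perm.mul_apply, h1, hi.2]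
  · intro i _ j _ h
    exact g.injective h
  · intro j hj
    rw [Finset.mem_filter] at hj
    have h1 : g (g⁻¹ j) = j := g.apply_symm_apply j
    refine ⟨g⁻¹ j, ?_, h1⟩
    rw [Finset.mem_filter]
    refine ⟨Finset.mem_univ _, ?_⟩
    apply g.injective
    rw [h1]
    exact hj.2

theorem EXP_Ew (N : ℕ) (g u : F2) : Ew N (g * u * g⁻¹) = Ew N u := by
  unfold Ew
  congr 1
  apply Finset.sum_congr rfl
  intro σ _
  rw [map_mul, map_mul, map_inv, EXP_fx]

theorem EXP_dv (ℓ : ℕ) (g u : F2) : dv ℓ (g * u * g⁻¹) = dv ℓ u := by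
  classical
  unfold dv
  congr 1
  apply Finset.filter_congr
  intro k _
  constructor
  · rintro ⟨v, hv⟩
    refine ⟨g⁻¹ * v * g, ?_⟩
    have h1 : (g⁻¹ * v * g) ^ k = g⁻¹ * v ^ k * g := by
      have h2 := conj_pow (a := g⁻¹) (b := v) (i := k)
      rwa [inv_inv] at h2
    rw [h1, hv]
    group
  · rintro ⟨v, hv⟩
    refine ⟨g * v * g⁻¹, ?_⟩
    rw [conj_pow, hv]

theorem EXP_CR (L : List Ltr) (hL : FreeGroup.IsCyclicallyReduced L) (hne : NeZero L.length) :
    CR (fun i : Fin L.length => L.get i) := by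
  intro i h
  obtain ⟨hred, hcyc⟩ := hL
  have hi := i.2
  rcases Nat.lt_or_ge ((i : ℕ) + 1) L.length with h1 | h1
  · have h2 : ((i + 1 : Fin L.length) : ℕ) = (i : ℕ) + 1 := Fin.val_add_one_of_lt' h1
    have h3 := (List.isChain_iff_getElem.1 hred) (i : ℕ) h1
    have h4 : L.get (i + 1) = L[(i : ℕ) + 1] := by
      rw [List.get_eq_getElem]
      congr 1
    have h5 : L.get i = L[(i : ℕ)] := List.get_eq_getElem
    simp only [h4, h5] at h
    rw [h] at h3
    have h6 := h3 rfl
    simp [linv] at h6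
  · have h2 : (i + 1 : Fin L.length) = 0 := by
      apply Fin.ext
      rw [Fin.val_add]
      have h3 : (i : ℕ) + 1 = L.length := by omega
      rcases Nat.lt_or_ge 1 L.length with h4 | h4
      · rw [Fin.val_one', Nat.mod_eq_of_lt h4, h3, Nat.mod_self]
        rfl
      · have h5 : L.length = 1 := by omega
        have h6 : ∀ a : ℕ, a % L.length = 0 := fun a => by rw [h5, Nat.mod_one]
        rw [h6]
        rfl
    have h3 : L.getLast? = some (L.get i) := by
      rw [List.getLast?_eq_getElem?, List.get_eq_getElem, List.getElem?_eq_getElem (by omega)]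
      congr 2
      omega
    have h4 : L.head? = some (L.get 0) := by
      rw [List.head?_eq_getElem?, List.get_eq_getElem, List.getElem?_eq_getElem (by omega)]
      rfl
    have h5 := hcyc _ h3 _ h4
    rw [h2] at h
    simp only at h
    rw [h] at h5
    have h6 := h5 rfl
    simp [linv] at h6

theorem EXP (h1 : EX1_stmt) : EXP_stmt := by
  intro ℓ w hw hl
  have hdec := FreeGroup.reduceCyclically.conj_conjugator_reduceCyclically w.toWord
  have hcyc : FreeGroup.IsCyclicallyReduced (FreeGroup.reduceCyclically w.toWord) :=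
    FreeGroup.reduceCyclically.isCyclicallyReduced FreeGroup.isReduced_toWord
  generalize FreeGroup.reduceCyclically w.toWord = L at hdec hcyc
  generalize FreeGroup.reduceCyclically.conjugator w.toWord = C at hdec
  have hwd : w = FreeGroup.mk C * FreeGroup.mk L * (FreeGroup.mk C)⁻¹ := by
    rw [FreeGroup.inv_mk, FreeGroup.mul_mk, FreeGroup.mul_mk, hdec, FreeGroup.mk_toWord]
  have hlen : L.length ≤ ℓ := by
    have h2 : w.toWord.length ≤ ℓ := hl
    rw [← hdec, List.length_append, List.length_append] at h2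
    omega
  have hL0 : L.length ≠ 0 := by
    intro h2
    have h3 : L = [] := List.length_eq_zero_iff.1 h2
    apply hw
    rw [hwd, h3, ← FreeGroup.one_eq_mk]
    group
  have hne : NeZero L.length := ⟨hL0⟩
  obtain ⟨P, hP1, hP2, hP3⟩ := h1 L.length ℓ (fun i : Fin L.length => L.get i)
    (EXP_CR L hcyc hne) hlen
  rw [List.ofFn_get] at hP2 hP3
  refine ⟨P, hP1, ?_, ?_⟩
  · intro N hN
    rw [hwd, EXP_Ew]
    exact hP2 N hN
  · rw [hwd, EXP_dv]
    exact hP3

end Pool.Agent.RP
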