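import Pool.Agent.helper62.RP.Spec

/-!
Row rp:SGF: free subgroups and transitive actions of surface groups.
-/

set_option autoImplicit false

open Polynomial Filter
open Pool.Agent.QU

namespace Pool.Agent.RP

theorem SGF_hom (k : ℕ) (G : Type) [Group G] (a b : G) :
    ∃ r : SurfGrp (k + 2) →* G, r (PresentedGroup.of (0, false)) = a ∧
      r (PresentedGroup.of (0, true)) = b := by
  let f : Fin (k + 2) × Bool → G := fun x =>
    if x.1 = 0 then (if x.2 then b else a) else if x.1 = 1 then (if x.2 then a else b) else 1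
  have hf : ∀ r ∈ ({surfRel (k + 2)} : Set (FreeGroup (Fin (k + 2) × Bool))), FreeGroup.lift f r = 1 := by
    intro r hr
    rw [Set.mem_singleton_iff] at hr
    subst hr
    rw [surfRel, map_list_prod, List.map_ofFn, List.ofFn_succ, List.ofFn_succ, List.prod_cons,
      List.prod_cons]
    have h1 : (List.ofFn fun i : Fin k => (⇑(FreeGroup.lift f) ∘ fun i : Fin (k + 2) =>
        FreeGroup.of (i, false) * FreeGroup.of (i, true) * (FreeGroup.of (i, false))⁻¹ *
          (FreeGroup.of (i, true))⁻¹) i.succ.succ).prod = 1 := by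
      apply List.prod_eq_one
      intro x hx
      rw [List.mem_ofFn] at hx
      obtain ⟨i, rfl⟩ := hx
      have h2 : (i.succ.succ : Fin (k + 2)) ≠ 0 := Fin.succ_ne_zero _
      have h3 : (i.succ.succ : Fin (k + 2)) ≠ 1 := by
        intro h
        have h4 : ((i.succ.succ : Fin (k + 2)) : ℕ) = 1 := by rw [h]; rfl
        simp at h4
      simp [f, h2, h3]
    rw [h1, mul_one]
    have h5 : (1 : Fin (k + 2)) ≠ 0 := by
      intro h
      have h4 : ((1 : Fin (k + 2)) : ℕ) = 0 := by rw [h]; rfl
      simp at h4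
    have h6 : (Fin.succ (0 : Fin (k + 1)) : Fin (k + 2)) = 1 := rfl
    simp only [Function.comp_apply, h6, map_mul, map_inv, FreeGroup.lift_apply_of, f, if_true,
      Bool.false_eq_true, if_false, h5]
    group
  refine ⟨PresentedGroup.toGroup hf, ?_, ?_⟩
  · rw [PresentedGroup.toGroup.of]
    simp [f]
  · rw [PresentedGroup.toGroup.of]
    simp [f]

theorem SGF_rot (n m : ℕ) (i : Fin (n + 1)) :
    ((((finRotate (n + 1)) ^ m) i : Fin (n + 1)) : ℕ) = ((i : ℕ) + m) % (n + 1) := by
  induction m generalizing i with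
  | zero =>
    rw [pow_zero, Equiv.Perm.one_apply, add_zero, Nat.mod_eq_of_lt i.2]
  | succ m ih =>
    rw [pow_succ, Equiv.Perm.mul_apply, ih, coe_finRotate]
    split_ifs with h
    · have h1 : (i : ℕ) = n := by rw [h]; simp
      rw [h1, zero_add, show n + (m + 1) = m + (n + 1) by ring, Nat.add_mod_right]
    · rw [show (i : ℕ) + 1 + m = (i : ℕ) + (m + 1) by ring]

theorem SGF : SGF_stmt := by
  intro g hg
  obtain ⟨k, rfl⟩ : ∃ k, g = k + 2 := ⟨g - 2, by omega⟩
  refine ⟨?_, ?_⟩
  · obtain ⟨r, hr0, hr1⟩ := SGF_hom k F2 (FreeGroup.of 0) (FreeGroup.of 1)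
    let s : F2 →* SurfGrp (k + 2) := FreeGroup.lift fun i : Fin 2 =>
      if i = 0 then PresentedGroup.of (0, false) else PresentedGroup.of (0, true)
    have hrs : r.comp s = MonoidHom.id F2 := by
      apply FreeGroup.ext_hom
      intro i
      rw [MonoidHom.comp_apply, MonoidHom.id_apply]
      have h1 : s (FreeGroup.of i) =
          if i = 0 then PresentedGroup.of (0, false) else PresentedGroup.of (0, true) := by
        simp [s]
      rw [h1]
      fin_cases i
      · simpa using hr0
      · simpa using hr1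
    refine ⟨s, fun x y hxy => ?_⟩
    have h2 : ∀ z, r (s z) = z := fun z => DFunLike.congr_fun hrs z
    rw [← h2 x, hxy, h2]
  · intro N
    cases N with
    | zero => exact ⟨1, fun i => i.elim0⟩
    | succ n =>
      obtain ⟨r, hr0, hr1⟩ := SGF_hom k (Equiv.Perm (Fin (n + 1))) (finRotate (n + 1)) 1
      refine ⟨r, fun i j => ⟨(PresentedGroup.of (0, false)) ^ ((j - i : Fin (n + 1)) : ℕ), ?_⟩⟩
      rw [map_pow, hr0]
      apply Fin.ext
      rw [SGF_rot, Fin.val_sub]
      have hi := i.2
      have hj := j.2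
      rw [Nat.add_mod_mod, show (i : ℕ) + (n + 1 - (i : ℕ) + (j : ℕ)) = (j : ℕ) + (n + 1) by omega,
        Nat.add_mod_right, Nat.mod_eq_of_lt hj]

end Pool.Agent.RP
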